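import Pool.Agent.H87.D3.Targets3

/-! LO2: the local lemma, square roots. -/

set_option autoImplicit false

namespace Pool.Agent.H51.D3

open MeasureTheory Metric Set Filter Topology Pool.Agent.H87.SN Pool.Agent.H87.SH Pool.Agent.H87.AX
open Pool.Agent.H87.D3
open scoped ContDiff RealInnerProductSpace ENNReal

theorem sqrt_half_pow (n : ℕ) : Real.sqrt ((1 / 2) ^ (2 * n)) = (1 / 2) ^ n := by
  rw [show ((1 : ℝ) / 2) ^ (2 * n) = ((1 / 2) ^ n) ^ 2 by ring]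
  exact Real.sqrt_sq (by positivity)

theorem key {m : ℕ} (G : V → V →L[ℝ] E m) (C₁ C₂ : ℝ) (hC₁ : 0 ≤ C₁) (hC₂ : 0 ≤ C₂) (q : ℕ)
    (x₁ : V) (X : ℝ≥0∞)
    (hI : ∫⁻ x in {x : V | rho x < (1 / 2) ^ (24 * q) / 4 ∧ |x 2| < 3 / 8 + (1 / 2) ^ (24 * q)},
      bt G x ((1 / 2) ^ (24 * q)) ≤ ENNReal.ofReal (C₂ / ((1 / 2) ^ (24 * q)) ^ 3) *
        (∫⁻ x in {x : V | rho x < (1 / 2) ^ (24 * q) / 2 ∧ |x 2| < 7 / 16},
          bs G x (2 * (1 / 2) ^ (24 * q))) ^ 2)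
    (hX : X ≤ Rl G C₁ ((1 / 2) ^ (4 * q)) ((1 / 2) ^ (24 * q)) x₁) :
    X ^ (1 / 2 : ℝ) ≤ Rf G (Real.sqrt C₁ * (1 + Real.sqrt C₂)) q x₁ := by
  set T : ℝ≥0∞ := ∫⁻ x in {x : V | rho x < (1 / 2) ^ (24 * q) / 2 ∧ |x 2| < 7 / 16},
          bs G x (2 * (1 / 2) ^ (24 * q)) with hT
  have hh : (0 : ℝ) ≤ 1 / 2 := by norm_num
  have e1 : 1 / Real.sqrt ((1 / 2) ^ (24 * q) * ((1 / 2) ^ (4 * q)) ^ 5) = 2 ^ (22 * q) := by
    rw [show ((1 : ℝ) / 2) ^ (24 * q) * ((1 / 2) ^ (4 * q)) ^ 5 = (1 / 2) ^ (2 * (22 * q)) by ring,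
      sqrt_half_pow, one_div_pow, one_div_one_div]
  have e2 : Real.sqrt ((1 / 2) ^ (4 * q)) = (1 / 2) ^ (2 * q) := by
    rw [show 4 * q = 2 * (2 * q) by ring, sqrt_half_pow]
  have e3 : C₂ / ((1 / 2) ^ (24 * q)) ^ 3 = C₂ * 2 ^ (72 * q) := by
    rw [one_div_pow, one_div_pow, div_div_eq_mul_div, div_one]
    ring
  have h1 : X ≤ ENNReal.ofReal C₁ * (ENNReal.ofReal C₂ * (ENNReal.ofReal (2 ^ (47 * q)) * T) ^ 2 +
      ENNReal.ofReal ((1 / 2) ^ q) ^ 2 * bt G x₁ (1 / 8)) := by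
    refine hX.trans ?_
    unfold Rl
    rw [e1, e2]
    gcongr ENNReal.ofReal C₁ * (?_ + ?_)
    · calc ENNReal.ofReal (2 ^ (22 * q)) *
          (∫⁻ x in {x : V | rho x < (1 / 2) ^ (24 * q) / 4 ∧ |x 2| < 3 / 8 + (1 / 2) ^ (24 * q)},
            bt G x ((1 / 2) ^ (24 * q)))
          ≤ ENNReal.ofReal (2 ^ (22 * q)) * (ENNReal.ofReal (C₂ / ((1 / 2) ^ (24 * q)) ^ 3) *
            T ^ 2) := by gcongr
        _ = ENNReal.ofReal C₂ * (ENNReal.ofReal (2 ^ (47 * q)) * T) ^ 2 := by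
            rw [e3, mul_pow, ← mul_assoc, ← mul_assoc, ← ENNReal.ofReal_mul (by positivity),
              ← ENNReal.ofReal_pow (by positivity), ← ENNReal.ofReal_mul hC₂]
            congr 2
            ring
    · apply mul_le_mul' (le_of_eq _) le_rfl
      rw [← ENNReal.ofReal_pow (by positivity)]
      congr 1
      ring
  have hhalf : (0 : ℝ) ≤ 1 / 2 := by norm_num
  have hhalf1 : (1 / 2 : ℝ) ≤ 1 := by norm_num
  have hsq : ∀ a : ℝ≥0∞, (a ^ 2) ^ (1 / 2 : ℝ) = a := by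
    intro a
    rw [← ENNReal.rpow_natCast, ← ENNReal.rpow_mul]
    norm_num
  have hof : ∀ a : ℝ, 0 ≤ a → ENNReal.ofReal a ^ (1 / 2 : ℝ) = ENNReal.ofReal (Real.sqrt a) := by
    intro a ha
    rw [ENNReal.ofReal_rpow_of_nonneg ha hhalf, Real.sqrt_eq_rpow]
  have h2 : X ^ (1 / 2 : ℝ) ≤ ENNReal.ofReal (Real.sqrt C₁) *
      (ENNReal.ofReal (Real.sqrt C₂) * (ENNReal.ofReal (2 ^ (47 * q)) * T) +
        ENNReal.ofReal ((1 / 2) ^ q) * bs G x₁ (1 / 8)) := by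
    refine (ENNReal.rpow_le_rpow h1 hhalf).trans ?_
    rw [ENNReal.mul_rpow_of_nonneg _ _ hhalf, hof C₁ hC₁]
    refine mul_le_mul' le_rfl ((ENNReal.rpow_add_le_add_rpow _ _ hhalf hhalf1).trans ?_)
    rw [ENNReal.mul_rpow_of_nonneg _ _ hhalf, ENNReal.mul_rpow_of_nonneg _ _ hhalf, hsq, hsq,
      hof C₂ hC₂]
    rfl
  refine h2.trans ?_
  unfold Rf
  rw [← hT, ENNReal.ofReal_mul (Real.sqrt_nonneg _), mul_assoc]
  refine mul_le_mul' le_rfl ?_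
  rw [mul_add]
  have hs1 : ENNReal.ofReal (Real.sqrt C₂) ≤ ENNReal.ofReal (1 + Real.sqrt C₂) :=
    ENNReal.ofReal_le_ofReal (by linarith [Real.sqrt_nonneg C₂])
  have hs2 : (1 : ℝ≥0∞) ≤ ENNReal.ofReal (1 + Real.sqrt C₂) := by
    rw [← ENNReal.ofReal_one]
    exact ENNReal.ofReal_le_ofReal (by linarith [Real.sqrt_nonneg C₂])
  refine add_le_add (mul_le_mul' hs1 le_rfl) ?_
  calc ENNReal.ofReal ((1 / 2) ^ q) * bs G x₁ (1 / 8)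
      = 1 * (ENNReal.ofReal ((1 / 2) ^ q) * bs G x₁ (1 / 8)) := (one_mul _).symm
    _ ≤ _ := mul_le_mul' hs2 le_rfl

theorem pf_LO2 (hLO1 : T_LO1) (hSUP : T_SUP) : T_LO2 := by
  intro m L Λ ε e hL hΛ hε he heΛ hEP
  obtain ⟨C₁, hC₁, h1⟩ := hLO1 m L Λ ε e hL hΛ hε he heΛ hEP
  obtain ⟨C₂, hC₂, h2⟩ := hSUP
  refine ⟨Real.sqrt C₁ * (1 + Real.sqrt C₂), by positivity, ?_⟩
  intro q hq
  have hh0 : (0 : ℝ) < (1 / 2) ^ (24 * q) := by positivity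
  have hσh : 64 * ((1 : ℝ) / 2) ^ (24 * q) ≤ (1 / 2) ^ (4 * q) := by
    have e1 : ((1 : ℝ) / 2) ^ (24 * q) = (1 / 2) ^ (4 * q) * (1 / 2) ^ (20 * q) := by ring
    have e2 : ((1 : ℝ) / 2) ^ (20 * q) ≤ (1 / 2) ^ 6 :=
      pow_le_pow_of_le_one (by norm_num) (by norm_num) (by omega)
    have e3 : (0 : ℝ) < (1 / 2) ^ (4 * q) := by positivity
    rw [e1]
    have e4 : ((1 : ℝ) / 2) ^ (4 * q) * (1 / 2) ^ (20 * q) ≤ (1 / 2) ^ (4 * q) * (1 / 2) ^ 6 :=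
      mul_le_mul_of_nonneg_left e2 e3.le
    calc 64 * (((1 : ℝ) / 2) ^ (4 * q) * (1 / 2) ^ (20 * q))
        ≤ 64 * ((1 / 2) ^ (4 * q) * (1 / 2) ^ 6) := by linarith
      _ = (1 / 2) ^ (4 * q) := by ring
  have hσ : ((1 : ℝ) / 2) ^ (4 * q) ≤ 1 / 256 := by
    calc ((1 : ℝ) / 2) ^ (4 * q) ≤ (1 / 2) ^ 8 :=
          pow_le_pow_of_le_one (by norm_num) (by norm_num) (by omega)
      _ = 1 / 256 := by norm_num
  have hh64 : ((1 : ℝ) / 2) ^ (24 * q) ≤ 1 / 64 := by linarith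
  obtain ⟨K, om, hom, h3⟩ := h1 ((1 / 2) ^ (4 * q)) ((1 / 2) ^ (24 * q)) hh0 hσh hσ
  refine ⟨K, om, hom, ?_⟩
  intro U u G hSM D x₀ hFr
  obtain ⟨h4, h5, h6⟩ := h3 U u G hSM D x₀ hFr
  refine ⟨h4, h5, ?_⟩
  intro x₁ hx₁
  obtain ⟨h7, h8⟩ := h6 x₁ hx₁
  have hI := h2 m G hSM.gd.memG ((1 / 2) ^ (24 * q)) hh0 hh64
  refine ⟨key G C₁ C₂ hC₁ hC₂ q x₁ _ hI h7, ?_⟩
  intro hlt
  have h9 := key G C₁ C₂ hC₁ hC₂ q x₁ _ hI (h8 hlt)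
  have hth : 0 ≤ th G x₀ ((1 / 2) ^ (4 * q) / 128) := by
    unfold th
    positivity
  rw [ENNReal.ofReal_rpow_of_nonneg hth (by norm_num), ← Real.sqrt_eq_rpow] at h9
  exact h9

end Pool.Agent.H51.D3
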